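import Pool.Agent.N659.HB.FinG
import Pool.Agent.N659.HB.Stm11

/-!
Project GH: assembly of the theorem for Gaussian disorder in high dimension.
-/

set_option autoImplicit false

namespace Pool.Agent.N776.GH

open MeasureTheory Filter Pool.Agent.W792.LL Pool.Agent.W792.WA ProbabilityTheory
open Pool.Agent.N659.HB
open scoped Topology ENNReal

noncomputable section

/-- The theorem for Gaussian disorder in high dimension, uniformly in the coupling. -/
theorem main (hG : S_GAPJ) (hT : S_TRG) (hI : S_INT) (hL : S_DOSL) (hN : S_ASYJ) (hC : S_CHK)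
    (hAe : S_AEQK) (hAf : S_AFF) (hW : S_WS)
    (hψ : ∃ ψ : C(UnitAddCircle, ℝ), IsSemi ψ ∧ ∀ d : ℕ, 0 < d → ∃ C : ℝ, 0 < C ∧
      ∀ (M : ℕ) (x : Fin d → ℤ),
      ‖UnitAddTorus.mFourierCoeff (fun k : UnitAddTorus (Fin d) =>
        ((ψ ((M * lap d k / (2 * Real.pi) : ℝ) : UnitAddCircle) : ℝ) : ℂ)) x‖
        ≤ C / (1 + ‖x‖) ^ ((d : ℝ) / 3)) : S_GH := by
  intro A hA
  obtain ⟨ψ, hψ1, hψ2⟩ := hψ
  obtain ⟨CI, d₁, hCI, hI1⟩ := hI
  obtain ⟨c, d₂, hc, hL1⟩ := hL A hA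
  obtain ⟨d₃, hN1⟩ := hN A CI c hA hCI hc
  refine ⟨max (max d₁ d₂) (max d₃ 1), fun d hd sg hsg1 hsg2 => ?_⟩
  have hd1 : d₁ ≤ d := (le_max_left _ _).trans ((le_max_left _ _).trans hd)
  have hd2 : d₂ ≤ d := (le_max_right _ _).trans ((le_max_left _ _).trans hd)
  have hd31 : max d₃ 1 ≤ d := (le_max_right _ _).trans hd
  have hd3 : d₃ ≤ d := (le_max_left _ _).trans hd31
  have hd0 : 0 < d := lt_of_lt_of_le one_pos ((le_max_right _ _).trans hd31)
  have hdr : (0 : ℝ) < d := by exact_mod_cast hd0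
  obtain ⟨Cd, hCd, hCd1⟩ := hψ2 d hd0
  obtain ⟨hL3, hp, hA2, hn1, hn2, hs₂⟩ := hN1 d hd3 sg hsg1 hsg2
  refine ⟨hp, ?_⟩
  set s : ℝ := Real.sqrt d with hs
  have hs0 : 0 < s := Real.sqrt_pos.2 hdr
  have hss : s * s = d := Real.mul_self_sqrt hdr.le
  set L : ℝ := Real.log d with hLdef
  set γ : ℝ := 2 * s / A with hγdef
  have hγ : 0 < γ := by positivity
  have hγ1 : 1 ≤ γ := by rw [hγdef, le_div_iff₀ hA]; linarith
  set l : ℝ := sg ^ 2 * L ^ 12 / (2 * s) with hl
  have hgl : γ * l = sg ^ 2 * L ^ 12 / A := by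
    rw [hγdef, hl]; field_simp
  have hL0 : 0 < L := by linarith
  have hlpos : 0 < l := by positivity
  have h2l : 2 * l = sg ^ 2 * L ^ 12 / s := by rw [hl]; field_simp
  have hgs : 0 < γ * sg := by positivity
  obtain ⟨X, X', hX1, hX2, hX3, hX4, hX5, hX6, hX7⟩ := hT (γ * sg) L hgs hL3
  obtain ⟨n, hNH⟩ := hs₂ _ hX6 hX7
  rw [← hgl] at hNH
  set m : ℝ := -(A * s) with hm
  have hal : (γ * sg) * L = γ * (sg * L) := by ring
  have hAs : A * s ≤ 2 * d := by
    have := mul_le_mul_of_nonneg_right hA2 hs0.le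
    nlinarith
  have hfacts : ∀ E : ℝ, 0 ≤ E → E ≤ 4 * d →
      (∀ k, |(γ • (adjm d - ContinuousMap.const _ m) : C(UnitAddTorus (Fin d), ℝ)) k - E|
        ≤ γ * (4 * d)) ∧
      (γ * (sg * L)) * (∫ k : UnitAddTorus (Fin d), wl (γ * l)
        ((γ • (adjm d - ContinuousMap.const _ m) : C(UnitAddTorus (Fin d), ℝ)) k - E))
        ≤ 2 * (sg * L) * CI * L / s / 2 ∧
      (γ * (sg * L)) ^ 2 * (∫ k : UnitAddTorus (Fin d), wl (γ * l)
        ((γ • (adjm d - ContinuousMap.const _ m) : C(UnitAddTorus (Fin d), ℝ)) k - E) ^ 2)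
        ≤ (sg * L) ^ 2 * CI / (l * s) ∧
      ∀ ρ : ℝ, γ * l / 4 ≤ ρ → (ρ ≤ 1 ∨ ρ = γ * l / 4) → (sg * L * c / s) * ρ
        ≤ (γ * (sg * L)) * dosK (γ • (adjm d - ContinuousMap.const _ m)) E ρ := by
    intro E hE0 hE1
    have hE3 : E / γ ≤ 2 * (A * s) := by
      rw [div_le_iff₀ hγ, hγdef]
      have : 2 * (A * s) * (2 * s / A) = 4 * (s * s) := by field_simp; ring
      rw [this, hss]
      exact hE1
    have hE4 : 0 ≤ E / γ := by positivity
    have hEe : E = γ * ((m + E / γ) - m) := by field_simp; ring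
    have hEa : 0 ≤ 2 * d - (m + E / γ) := by rw [hm]; linarith
    have hEb : 2 * d - (m + E / γ) ≤ 4 * d := by rw [hm]; linarith
    have hEc : |2 * d - (m + E / γ) - 2 * d| ≤ A * s := by
      rw [hm, abs_le]
      constructor <;> linarith
    have hIE := hI1 d hd1 l (2 * d - (m + E / γ)) hn1 hn2 hEa hEb
    have hD4 : ∀ k, |lap d k - (2 * d - (m + E / γ))| ≤ 4 * d := by
      intro k
      have := lap_mem d k
      rw [abs_le]
      constructor <;> linarith [this.1, this.2]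
    have hdl : ∀ ρ : ℝ, γ * l / 4 ≤ ρ → (ρ ≤ 1 ∨ ρ = γ * l / 4) →
        c / s * (ρ / γ) ≤ dos d (2 * d - (m + E / γ)) (ρ / γ) := by
      intro ρ h1 h2
      have hρ : 0 < ρ := lt_of_lt_of_le (by positivity) h1
      have hρ1 : ρ / γ ≤ 1 := by
        rw [div_le_one hγ]
        rcases h2 with h2 | h2
        · linarith
        · rw [h2]
          nlinarith
      have := hL1 d hd2 (2 * d - (m + E / γ)) (ρ / γ) hEc (by positivity) hρ1
      refine le_trans (le_of_eq ?_) this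
      ring
    have hsc := fun (ρ : ℝ) (h1 : γ * l / 4 ≤ ρ) (h2 : ρ ≤ 1 ∨ ρ = γ * l / 4) =>
      scaled_factsA (d := d) (m := m) (al := γ * (sg * L)) hγ hEe (by positivity) hIE.1 hIE.2
        (hdl ρ h1 h2) hD4
    have hsc0 := hsc (γ * l / 4) le_rfl (Or.inr rfl)
    have e1 : γ * (sg * L) / γ = sg * L := by field_simp
    refine ⟨hsc0.1, ?_, ?_, fun ρ h1 h2 => ?_⟩
    · refine hsc0.2.1.trans (le_of_eq ?_)
      rw [e1]; ring
    · refine hsc0.2.2.1.trans (le_of_eq ?_)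
      rw [e1]; ring
    · have := (hsc ρ h1 h2).2.2.2
      rw [e1] at this
      refine le_trans (le_of_eq ?_) this
      ring
  rw [hal] at hX4 hX6 hX7
  have hNH' := hNH
  rw [hal] at hNH'
  obtain ⟨σ, hσ, hgap⟩ := hG ψ hψ1 X X' d n
    (γ • (adjm d - ContinuousMap.const _ m)) _ _ _ _ _ _ _ _ _ hNH' hX3 hX2 hX4 hX5 rfl hfacts
  have hm2 : Measurable fun x : ℝ => (γ * sg) * x := by fun_prop
  have hP2 : IsProbabilityMeasure ((gaussianReal 0 1).map fun x => (γ * sg) * x) :=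
    Measure.isProbabilityMeasure_map hm2.aemeasurable
  have hmap : ((gaussianReal 0 1).map fun x => (γ * sg) * x) = qlaw X := by
    rw [hX1]
    have h := gaussianReal_map_const_mul (μ := 0) (v := 1) (γ * sg)
    rw [mul_zero, mul_one] at h
    exact h
  have hgap' : ∀ (μ : Measure ℝ) [IsProbabilityMeasure μ], μ = qlaw X →
      ∀ (ρ' : Measure ℝ) [IsProbabilityMeasure ρ'],
      ρ' (Set.Icc (-((γ * l) / 8)) ((γ * l) / 8))ᶜ = 0 →
      ∀ z ∈ Zs d, ∀ s, IsFix μ ((lev ψ (γ * l)).conv ρ')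
        (wz (γ • (adjm d - ContinuousMap.const _ m)) z) s → ‖s‖ ≤ 1 - σ := by
    intro μ _ hμ ρ' _ hρ z hz s' hs'
    subst hμ
    exact hgap ρ' hρ z hz s' hs'
  obtain ⟨b, hb1', hb2⟩ := of_gapK hC hAe hAf hψ1 hd0 (adjm d) (gaussianReal 0 1) γ sg l m hγ hp
    hlpos (by rw [hmap]; exact hX2) hσ (hgap' _ hmap)
  set f : C(ℝ, ℝ) := ⟨fun t => 2 * (d : ℝ) - t, by fun_prop⟩ with hf
  refine ⟨b.comp f, fun t => ?_, ⟨2 * l * Cd, fun x => ?_⟩, ?_⟩
  · rw [← h2l]
    exact G16.IsSum.bound hψ1.bound hb1' _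
  · have h1 := hW d ψ Cd (2 * l) b hd0 hCd.le (by positivity) hCd1 hb1' x
    have e : (fun k : UnitAddTorus (Fin d) => (((b.comp f) (adjm d k) : ℝ) : ℂ))
        = fun k => ((b (lap d k) : ℝ) : ℂ) := by
      funext k
      have : f (adjm d k) = lap d k := by
        simp only [hf, adjm, ContinuousMap.coe_mk, ContinuousMap.sub_apply,
          ContinuousMap.const_apply]
        ring
      rw [ContinuousMap.comp_apply, this]
    rw [e]
    exact h1
  · have e3 : m + 4 * d / γ = A * s := by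
      have e4 : 4 * (d : ℝ) / γ = 2 * (A * s) := by
        rw [hγdef, div_div_eq_mul_div, ← hss]
        field_simp
        ring
      rw [e4, hm]
      ring
    have e4 : (b.comp f).comp (adjm d) = gK b d := by
      ext k
      have : f (adjm d k) = lap d k := by
        simp only [hf, adjm, ContinuousMap.coe_mk, ContinuousMap.sub_apply,
          ContinuousMap.const_apply]
        ring
      simp only [gK, ContinuousMap.comp_apply]
      rw [← this]
    rw [e4]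
    filter_upwards [hb2] with v hv
    rw [e3] at hv
    exact ACIK_mono hv (by rw [hm]) le_rfl

end

end Pool.Agent.N776.GH
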